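import Pool.Agent.H71.CQ.Basic

/-!
Row SUM of the board cqt_modules (MP_5607ba_lc).
-/

set_option autoImplicit false

open Set

namespace Pool.Agent.H3.CQ

open Pool.Agent.H71.CQ

section

variable {L : Type} {N : NF L} {e0 : ℕ → ℕ → L} {J : Type} {e : J → ℕ → ℕ → L}
  {g : ∀ j, {x // Wp N e0 x} ≃ {x // Wp N (e j) x}} {cr : SQ N e → SQ N e → L}

open Classical in
/-- the embedding of the structure `e j` in the sum -/
noncomputable def ph (g : ∀ j, {x // Wp N e0 x} ≃ {x // Wp N (e j) x}) (j : J) (y : ℕ) :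
    SV N e0 e :=
  if h : Wp N (e j) y then Sum.inl ((g j).symm ⟨y, h⟩) else Sum.inr ⟨j, ⟨y, h⟩⟩

theorem ph_wp {j : J} {y : ℕ} (h : Wp N (e j) y) :
    ph g j y = Sum.inl ((g j).symm ⟨y, h⟩) := dif_pos h

theorem ph_nwp {j : J} {y : ℕ} (h : ¬ Wp N (e j) y) :
    ph g j y = Sum.inr ⟨j, ⟨y, h⟩⟩ := dif_neg h

theorem ph_inl (j : J) (k : {x // Wp N e0 x}) : ph g j (g j k) = Sum.inl k := by
  rw [ph_wp (g j k).2]
  exact congrArg Sum.inl ((g j).symm_apply_apply k)

theorem ph_inr (v : SQ N e) : ph g v.1 v.2 = Sum.inr v := ph_nwp v.2.2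

theorem ph_inj (j : J) : Function.Injective (ph g j) := by
  intro x y h
  by_cases hx : Wp N (e j) x
  · by_cases hy : Wp N (e j) y
    · rw [ph_wp hx, ph_wp hy] at h
      have h1 := (g j).symm.injective (Sum.inl.inj h)
      exact congrArg Subtype.val h1
    · rw [ph_wp hx, ph_nwp hy] at h
      cases h
  · by_cases hy : Wp N (e j) y
    · rw [ph_nwp hx, ph_wp hy] at h
      cases h
    · rw [ph_nwp hx, ph_nwp hy] at h
      have h1 := Sum.inr.inj h
      have h2 := (Sigma.mk.inj_iff.1 h1).2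
      exact congrArg Subtype.val (eq_of_heq h2)

theorem se_rr (j : J) (a b : {x // ¬ Wp N (e j) x}) :
    SE N e0 e g cr (Sum.inr ⟨j, a⟩) (Sum.inr ⟨j, b⟩) = e j a b := by
  unfold SE
  exact if_pos rfl

theorem se_cr {v w : SQ N e} (h : v.1 ≠ w.1) :
    SE N e0 e g cr (Sum.inr v) (Sum.inr w) = cr v w := by
  unfold SE
  exact if_neg h

theorem emb (hS : SH N e0 e g cr) (j : J) (x y : ℕ) :
    SE N e0 e g cr (ph g j x) (ph g j y) = e j x y := by
  by_cases hx : Wp N (e j) x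
  · by_cases hy : Wp N (e j) y
    · rw [ph_wp hx, ph_wp hy]
      show e0 ((g j).symm ⟨x, hx⟩) ((g j).symm ⟨y, hy⟩) = _
      rw [← hS.w j, Equiv.apply_symm_apply, Equiv.apply_symm_apply]
    · rw [ph_wp hx, ph_nwp hy]
      show e j (g j ((g j).symm ⟨x, hx⟩)) y = _
      rw [Equiv.apply_symm_apply]
  · by_cases hy : Wp N (e j) y
    · rw [ph_nwp hx, ph_wp hy]
      show e j x (g j ((g j).symm ⟨y, hy⟩)) = _
      rw [Equiv.apply_symm_apply]
    · rw [ph_nwp hx, ph_nwp hy]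
      exact se_rr j _ _

theorem cover [Nonempty J] (x : SV N e0 e) : ∃ (j : J) (a : ℕ), ph g j a = x := by
  rcases x with k | v
  · obtain ⟨j⟩ := ‹Nonempty J›
    exact ⟨j, g j k, ph_inl j k⟩
  · exact ⟨v.1, v.2, ph_inr v⟩

/-- two points are in the image of one of the structures, or they have a free label -/
theorem two (hS : SH N e0 e g cr) [Nonempty J] (x y : SV N e0 e) :
    (∃ (j : J) (a b : ℕ), ph g j a = x ∧ ph g j b = y) ∨
      ∃ v w : SQ N e, v.1 ≠ w.1 ∧ x = Sum.inr v ∧ y = Sum.inr w := by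
  rcases x with k | v
  · rcases y with k' | w
    · obtain ⟨j⟩ := ‹Nonempty J›
      exact Or.inl ⟨j, g j k, g j k', ph_inl j k, ph_inl j k'⟩
    · exact Or.inl ⟨w.1, g w.1 k, w.2, ph_inl w.1 k, ph_inr w⟩
  · rcases y with k' | w
    · exact Or.inl ⟨v.1, v.2, g v.1 k', ph_inr v, ph_inl v.1 k'⟩
    · by_cases h : v.1 = w.1
      · obtain ⟨i, a⟩ := v
        obtain ⟨j, b⟩ := w
        change i = j at h
        subst h
        exact Or.inl ⟨i, a, b, ph_inr (g := g) ⟨i, a⟩, ph_inr (g := g) ⟨i, b⟩⟩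
      · exact Or.inr ⟨v, w, h, rfl, rfl⟩

theorem coh (hS : SH N e0 e g cr) [Nonempty J] : Coh N (SE N e0 e g cr) := by
  have hself : ∀ v : SQ N e, SE N e0 e g cr (Sum.inr v) (Sum.inr v) = e v.1 v.2 v.2 :=
    fun v => se_rr v.1 v.2 v.2
  refine ⟨fun x y => ?_, fun x y => ?_, fun x y => ?_, fun x y => ?_⟩
  · rcases two hS x y with ⟨j, a, b, rfl, rfl⟩ | ⟨v, w, h, rfl, rfl⟩
    · rw [emb hS, emb hS]
      exact (hS.m j).rev a b
    · rw [se_cr h, se_cr (Ne.symm h)]
      exact hS.rev v w h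
  · rcases two hS x y with ⟨j, a, b, rfl, rfl⟩ | ⟨v, w, h, rfl, rfl⟩
    · rw [emb hS, emb hS]
      exact (hS.m j).src a b
    · rw [se_cr h, hself]
      exact (hS.fr v w h).2.1.symm
  · rcases two hS x y with ⟨j, a, b, rfl, rfl⟩ | ⟨v, w, h, rfl, rfl⟩
    · rw [emb hS, (hS.m j).dia, (ph_inj j).eq_iff]
    · rw [se_cr h]
      constructor
      · intro h1
        exact absurd h1 (hS.fr v w h).2.2.2.1
      · intro h1
        exact absurd (congrArg Sigma.fst (Sum.inr.inj h1)) h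
  · rcases two hS x y with ⟨j, a, b, rfl, rfl⟩ | ⟨v, w, h, rfl, rfl⟩
    · rw [emb hS]
      exact (hS.m j).U a b
    · rw [se_cr h]
      exact rl_U (hS.fr v w h).1

/-- the neighbours with a closed label -/
theorem closed (hS : SH N e0 e g cr) (j : J) (a : ℕ) (l : L) (hl : ¬ Op N l) :
    {y | SE N e0 e g cr (ph g j a) y = l} = ph g j '' {y | e j a y = l} := by
  ext y
  constructor
  · intro hy
    change SE N e0 e g cr (ph g j a) y = l at hy
    rcases y with k | w
    · refine ⟨g j k, ?_, ph_inl j k⟩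
      change e j a (g j k) = l
      rw [← emb hS j, ph_inl]
      exact hy
    · by_cases h : w.1 = j
      · obtain ⟨i, b⟩ := w
        change i = j at h
        subst h
        refine ⟨b, ?_, ph_inr (g := g) ⟨i, b⟩⟩
        change e i a b = l
        rw [← emb hS i, ph_inr (g := g) ⟨i, b⟩]
        exact hy
      · exfalso
        by_cases ha : Wp N (e j) a
        · rw [ph_wp ha] at hy
          change e w.1 (g w.1 ((g j).symm ⟨a, ha⟩)) w.2 = l at hy
          apply hl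
          rw [← hy]
          exact op_of_wp (g w.1 ((g j).symm ⟨a, ha⟩)).2 w.2.2
        · rw [ph_nwp ha, se_cr (fun h' => h h'.symm)] at hy
          apply hl
          rw [← hy]
          exact (hS.fr ⟨j, ⟨a, ha⟩⟩ w fun h' => h h'.symm).2.2.2.2.1
  · rintro ⟨b, hb, rfl⟩
    change SE N e0 e g cr (ph g j a) (ph g j b) = l
    rw [emb hS]
    exact hb

end

theorem pf_SUM (hGLU : T_GLU) : T_SUM := by
  intro L N hN e0 J _ e g cr hS
  refine hGLU L N hN _ _ (coh hS) ?_
  intro x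
  obtain ⟨j, a, rfl⟩ := cover (g := g) x
  refine ⟨ℕ, e j, a, hS.m j, (emb hS j a a).symm, fun l hl => ?_, fun n hn => ?_⟩
  · rw [closed hS j a l hl, (ph_inj j).injOn.encard_image]
  · rw [emb hS] at hn
    have h1 : {y | e j a y ∈ N.B n}.Infinite := by
      rw [← Set.encard_eq_top_iff, (hS.m j).cnt, hn]
    refine (h1.image (ph_inj (g := g) j).injOn).mono ?_
    rintro _ ⟨b, hb, rfl⟩
    change SE N e0 e g cr (ph g j a) (ph g j b) ∈ N.B n
    rw [emb hS]
    exact hb

end Pool.Agent.H3.CQ
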